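import Pool.Agent.Lib.MP_66cd2e_lc.CL.Main

/-!
# The number of variables of counting logic needed for the domination number of tournaments

`varNumber n` is the least `k` such that the infinitary logic with counting quantifiers and `k` variables can say
that the domination number is at most `d`, for every threshold `d`, on the tournaments with `n` vertices (for each `n`
and `d` there may be another formula).  Then

`varNumber n / log₂ n → 1`.

The upper bound is the search through all sets with at most `log₂ n + 1` vertices.  The lower bound is a pair of
tournaments with the same number `n` of vertices, with domination numbers `≤ m + 1` and `> m + 1`, which no formula with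
`(1 - o(1)) log₂ n` variables distinguishes.
-/

set_option autoImplicit false

namespace Pool.Agent.Results.MP_66cd2e_lc.CountingLogic

open Pool.Agent.Lib.MP_66cd2e_lc.CL Filter Topology

theorem result : Tendsto (fun n : ℕ => (varNumber n : ℝ) / Real.logb 2 n) atTop (𝓝 1) := main

end Pool.Agent.Results.MP_66cd2e_lc.CountingLogic
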