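import Pool.Agent.Lib.MP_66cd2e_lc.DG.Fin

/-!
# Approximation of the domination number of a tournament by circuits with few negations

Let `Λ = log₂ n - 2 log₂ log₂ n - K₀`. For every `K` between the constant `K₀` and `Λ` there is
a family of tournaments with `n` vertices, given by the arcs between two sets `A`, `B` of
vertices (the other arcs are fixed), on which `γ(T)` does not increase by more than one if some
of the bits `[a → b]` are switched on, and there are `N` pairs `(P i, Q i)` of members with
`γ(P i) ≤ K` and `Λ < γ(Q i)`, such that circuits with at most `n ^ (c K)` gates and few gates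
other than AND, OR gates (for instance at most `(1 - ε) log₂ n` NOT gates) have the same output
on both members of all but a fraction `n ^ (-c)` of the pairs. In particular they do not
separate the members with `γ(T) ≤ K` from the members with `γ(T) > Λ`.
-/

set_option autoImplicit false

namespace Pool.Agent.Results.MP_66cd2e_lc.NoApproximation

open Pool.Agent.DN Pool.Agent.DG Pool.Agent.NEG Pool.Agent.Lib.MP_66cd2e_lc

theorem result (ε : ℝ) (hε : 0 < ε) : ∃ c : ℝ, 0 < c ∧ ∃ K₀ : ℕ, ∀ n K : ℕ, K₀ ≤ K →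
    (K : ℝ) ≤ Real.logb 2 n - 2 * Real.logb 2 (Real.logb 2 n) - K₀ →
    ∃ (T0 : Tournament (Fin n)) (A B : Finset (Fin n)) (N : ℕ)
      (P Q : Fin N → Tournament (Fin n)), Disjoint A B ∧ 0 < N ∧
      (∀ S T, SameOff T0 S A B → SameOff T0 T A B → (∀ a ∈ A, ∀ b ∈ B, S.arc a b → T.arc a b) →
        domNumber T ≤ domNumber S + 1) ∧
      (∀ i, SameOff T0 (P i) A B ∧ SameOff T0 (Q i) A B ∧ domNumber (P i) ≤ K ∧
        Real.logb 2 n - 2 * Real.logb 2 (Real.logb 2 n) - K₀ < domNumber (Q i)) ∧
      ∀ (G : Type) [Finite G] (C : Circuit ({x // x ∈ A} × {x // x ∈ B}) G),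
        (∃ d, C.DepthLE d) → Few C ((n : ℝ) ^ (1 - ε)) → (Nat.card G : ℝ) ≤ (n : ℝ) ^ (c * K) →
        ¬ Separates T0 A B K (Real.logb 2 n - 2 * Real.logb 2 (Real.logb 2 n) - K₀) C ∧
        ({i | Differs A B C (P i) (Q i)}.ncard : ℝ) ≤ (n : ℝ) ^ (-c) * N :=
  final ε hε

end Pool.Agent.Results.MP_66cd2e_lc.NoApproximation
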