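import Pool.Agent.Lib.MP_66cd2e_lc.Upper

/-!
# Sum-of-squares certificates for the domination number of a tournament

For every finite tournament `T` and all `k`, `d`:

* the degree `2 * k + 3` sum-of-squares proof system certifies `γ(T) > k` exactly when this is true;
* a sum-of-squares certificate of degree `2 * d + 1` of `γ(T) > k`, for whatever tournament `T`,
  forces `√k < √2 (√d + 1) + √d`, that is `d ≥ k / (3 + 2 √2) - O(√k)`.

So, for every tournament, the degree needed to certify the domination number is linear in it.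
-/

set_option autoImplicit false

namespace Pool.Agent.Results.MP_66cd2e_lc.SumOfSquares

open Pool.Agent.Lib.MP_66cd2e_lc MvPolynomial

theorem ev_sos_nonneg {V : Type} [Fintype V] {d : ℕ} (x : V → Bool) {σ : MvPolynomial V ℝ}
    (h : IsSoS d σ) : 0 ≤ ev x σ := by
  obtain ⟨l, -, rfl⟩ := h
  induction l with
  | nil => simp
  | cons p l ih =>
    rw [List.map_cons, List.sum_cons, map_add, map_pow]
    exact add_nonneg (sq_nonneg _) ih

/-- Soundness: a refutation shows that there is no dominating set with at most `k` vertices. -/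
theorem sound {V : Type} [Fintype V] (T : Tournament V) (k d : ℕ)
    (h : HasSoSRefutation T k d) : k < domNumber T := by
  classical
  by_contra hcon
  push Not at hcon
  obtain ⟨S, hS, hcard⟩ : domNumber T ∈ {m : ℕ | ∃ S : Finset V, IsDominating T S ∧ S.card = m} :=
    Nat.sInf_mem ⟨_, Finset.univ, fun w hw => absurd (Finset.mem_univ w) hw, rfl⟩
  obtain ⟨σ₀, τ, σ, q, h0, hτ, hσ, -, hid⟩ := h
  let x : V → Bool := fun v => decide (v ∈ S)
  have hval : ∀ v, val (x v) = if v ∈ S then 1 else 0 := by
    intro v
    by_cases hv : v ∈ S <;> simp [x, hv, val]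
  have h1 := congrArg (ev x) hid
  have hq : ev x (∑ v, q v * (X v ^ 2 - X v)) = 0 := by
    rw [map_sum]
    refine Finset.sum_eq_zero fun v _ => ?_
    rw [map_mul, map_sub, map_pow]
    have : ev x (X v) = val (x v) := by simp [ev]
    rw [this, val_pow _ 2 (by norm_num), sub_self, mul_zero]
  rw [map_add, map_add, map_add, hq, add_zero, map_mul, ev_size, map_sum] at h1
  simp_rw [map_mul, ev_dom] at h1
  have h2 : (0 : ℝ) ≤ (k : ℝ) - ∑ v, val (x v) := by
    simp_rw [hval]
    rw [Finset.sum_ite_mem, Finset.univ_inter, Finset.sum_const, nsmul_eq_mul, mul_one, hcard]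
    have : (domNumber T : ℝ) ≤ k := by exact_mod_cast hcon
    linarith
  have h3 : ∀ w, (0 : ℝ) ≤ (∑ v ∈ inN T w, val (x v)) - 1 := by
    intro w
    have : ∃ v ∈ inN T w, v ∈ S := by
      by_cases hw : w ∈ S
      · exact ⟨w, (mem_inN T w w).2 (Or.inl rfl), hw⟩
      · obtain ⟨v, hv, hvw⟩ := hS w hw
        exact ⟨v, (mem_inN T w v).2 (Or.inr hvw), hv⟩
    obtain ⟨v, hv, hvS⟩ := this
    have h4 : val (x v) ≤ ∑ v ∈ inN T w, val (x v) :=
      Finset.single_le_sum (f := fun v => val (x v))
        (fun v _ => by unfold val; split_ifs <;> norm_num) hv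
    rw [hval v, if_pos hvS] at h4
    linarith
  have h5 : (0 : ℝ) ≤ ∑ w, ev x (σ w) * ((∑ v ∈ inN T w, val (x v)) - 1) :=
    Finset.sum_nonneg fun w _ => mul_nonneg (ev_sos_nonneg x (hσ w)) (h3 w)
  have h6 := ev_sos_nonneg x h0
  have h7 := mul_nonneg (ev_sos_nonneg x hτ) h2
  simp only [map_neg, map_one] at h1
  linarith

/-- For every finite tournament `T` and all `k`, `d`: sum-of-squares refutations with multipliers
of degree `≤ k + 1` decide whether `γ(T) > k`, and any sum-of-squares refutation of
`γ(T) ≤ k` with multipliers of degree `≤ d` satisfies `√k < √2 (√d + 1) + √d`. -/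
theorem result (V : Type) [Fintype V] (T : Tournament V) (k d : ℕ) :
    (HasSoSRefutation T k (k + 1) ↔ k < domNumber T) ∧
    (HasSoSRefutation T k d →
      Real.sqrt k < Real.sqrt 2 * (Real.sqrt d + 1) + Real.sqrt d) := by
  classical
  refine ⟨⟨sound T k (k + 1), exists_refutation T k⟩, fun h => ?_⟩
  by_contra hcon
  exact no_refutation T k d (not_lt.1 hcon) h

end Pool.Agent.Results.MP_66cd2e_lc.SumOfSquares
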